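import Pool.Agent.helper62.RS.SpecE

/-!
# MP_07c750_an, row rs:EKB
-/

open scoped MatrixGroups ContDiff Topology UpperHalfPlane ComplexConjugate
open UpperHalfPlane MeasureTheory Filter Set

namespace Pool.Agent.RS

private theorem EKB_dist (z : ℍ) (hx : |z.re| ≤ 1 / 4) (hy : |Real.log z.im| ≤ 1 / 4) : dist z I ≤ 1 := by
  have hy0 := z.im_pos
  have a1 := (abs_le.1 hx)
  have a2 := (abs_le.1 hy)
  have hl : 3 / 4 ≤ z.im := by
    have h1 := Real.add_one_le_exp (-(1 / 4) : ℝ)
    have h2 : Real.exp (-(1 / 4)) ≤ z.im := by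
      rw [← Real.le_log_iff_exp_le hy0]
      exact a2.1
    linarith
  have hu : z.im ≤ 4 / 3 := by
    have h1 := Real.add_one_le_exp (-(1 / 4) : ℝ)
    have h2 : z.im ≤ Real.exp (1 / 4) := by
      rw [← Real.log_le_iff_le_exp hy0]
      exact a2.2
    have h3 : Real.exp (-(1 / 4)) * Real.exp (1 / 4) = 1 := by
      rw [← Real.exp_add]; simp
    have h4 := Real.exp_pos (1 / 4)
    nlinarith
  have h1 : Real.cosh (dist z I) ≤ Real.cosh 1 := by
    rw [UpperHalfPlane.cosh_dist']
    have h2 : (3 / 2 : ℝ) ≤ Real.cosh 1 := by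
      rw [Real.cosh_eq]
      have h3 := Real.exp_one_gt_d9
      have h4 := Real.exp_pos (-1)
      have h5 : Real.exp 1 * Real.exp (-1) = 1 := by
        rw [← Real.exp_add]; simp
      have h6 := Real.exp_one_lt_d9
      nlinarith
    refine le_trans ?_ h2
    rw [div_le_iff₀ (by simp; positivity)]
    simp only [UpperHalfPlane.I_re, UpperHalfPlane.I_im]
    nlinarith
  rw [Real.cosh_le_cosh, abs_one] at h1
  exact (le_abs_self _).trans h1

theorem EKB (hGLC : GLC_stmt) (hGKB : GKB_stmt) (hFL0 : FL0_stmt) : EKB_stmt := by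
  obtain ⟨-, hF2, -⟩ := hFL0
  intro Γ F hΓ hF
  obtain ⟨n, hn⟩ := hGKB Γ F 1 hΓ hF
  refine ⟨n + 1, by omega, fun c r B hc hB g g' => ?_⟩
  obtain ⟨hcd, hsup⟩ := hF2 (1 / 4) r c hc
  have hB0 : 0 ≤ B := (norm_nonneg _).trans (hB 1 1)
  have hcont : Continuous (pk r c) := by
    have h1 : Continuous fun z : ℍ => QU.onC (pk r c) (z : ℂ) :=
      hcd.continuousOn.comp_continuous UpperHalfPlane.continuous_coe (fun z => z.im_pos)
    have h2 : (fun z : ℍ => QU.onC (pk r c) (z : ℂ)) = pk r c := by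
      funext z
      simp [QU.onC, UpperHalfPlane.ofComplex_apply]
    rwa [h2] at h1
  have h3 := hn (pk r c) B hcont hsup (fun z hz => by
    have hcz : c z ≠ 0 := by
      intro h0
      apply hz
      simp [pk, h0]
    obtain ⟨b1, b2⟩ := hc.2 z hcz
    exact EKB_dist z b1 b2) (fun h => by
    have := hB 1 h⁻¹
    simpa using this) g g'
  refine h3.trans ?_
  push_cast
  nlinarith

end Pool.Agent.RS
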