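import Pool.Agent.helper62.RS.SpecQ

/-!
# MP_07c750_an, row rs:QAV
-/

open scoped MatrixGroups ContDiff Topology UpperHalfPlane ComplexConjugate
open UpperHalfPlane MeasureTheory Filter Set

namespace Pool.Agent.RS

private theorem QAV_shift (f : ℝ → ℝ) (hf : Continuous f) (m : ℝ) (hm : ∀ t, |f t| ≤ m) (a b x : ℝ) :
    |(∫ t in a..b, f (t + x)) - ∫ t in a..b, f t| ≤ 2 * |x| * m := by
  rw [intervalIntegral.integral_comp_add_right (fun t => f t) x]
  rw [intervalIntegral.integral_interval_sub_interval_comm (hf.intervalIntegrable _ _)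
    (hf.intervalIntegrable _ _) (hf.intervalIntegrable _ _)]
  have h1 : |∫ t in (a + x)..a, f t| ≤ m * |x| := by
    have := intervalIntegral.norm_integral_le_of_norm_le_const (a := a + x) (b := a) (f := f) (C := m)
      (fun t _ => by rw [Real.norm_eq_abs]; exact hm t)
    rw [Real.norm_eq_abs] at this
    refine this.trans (le_of_eq ?_)
    congr 1
    rw [show a - (a + x) = -x by ring, abs_neg]
  have h2 : |∫ t in (b + x)..b, f t| ≤ m * |x| := by
    have := intervalIntegral.norm_integral_le_of_norm_le_const (a := b + x) (b := b) (f := f) (C := m)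
      (fun t _ => by rw [Real.norm_eq_abs]; exact hm t)
    rw [Real.norm_eq_abs] at this
    refine this.trans (le_of_eq ?_)
    congr 1
    rw [show b - (b + x) = -x by ring, abs_neg]
  calc |(∫ t in (a + x)..a, f t) - ∫ t in (b + x)..b, f t|
      ≤ |∫ t in (a + x)..a, f t| + |∫ t in (b + x)..b, f t| := abs_sub _ _
    _ ≤ m * |x| + m * |x| := add_le_add h1 h2
    _ = 2 * |x| * m := by ring

private theorem QAV_swap (F : ℝ → ℝ → ℝ) (hF : Continuous (Function.uncurry F)) (a b c d : ℝ) :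
    ∫ x in a..b, ∫ y in c..d, F x y = ∫ y in c..d, ∫ x in a..b, F x y := by
  apply intervalIntegral_intervalIntegral_swap
  exact (hF.continuousOn.integrableOn_compact (isCompact_uIcc.prod isCompact_uIcc)).mono_set
    (Set.prod_mono uIoc_subset_uIcc uIoc_subset_uIcc)

private theorem QAV_a (w : ℝ → ℝ → ℝ) (hw : Continuous (Function.uncurry w)) (m : ℝ) (hm : ∀ v t, |w v t| ≤ m)
    (τ x : ℝ) (hτ : 0 < τ) :
    |(∫ v in (0 : ℝ)..1, τ⁻¹ * ∫ t in (0 : ℝ)..τ, w v (t + x)) -
      ∫ v in (0 : ℝ)..1, τ⁻¹ * ∫ t in (0 : ℝ)..τ, w v t| ≤ 2 * |x| * m / τ := by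
  have hw' : Continuous (Function.uncurry fun v t => w v (t + x)) := by
    have : Continuous fun p : ℝ × ℝ => (p.1, p.2 + x) := by fun_prop
    exact hw.comp this
  have c1 : Continuous fun v : ℝ => τ⁻¹ * ∫ t in (0 : ℝ)..τ, w v (t + x) :=
    continuous_const.mul
      (intervalIntegral.continuous_parametric_intervalIntegral_of_continuous' hw' 0 τ)
  have c2 : Continuous fun v : ℝ => τ⁻¹ * ∫ t in (0 : ℝ)..τ, w v t :=
    continuous_const.mul
      (intervalIntegral.continuous_parametric_intervalIntegral_of_continuous' hw 0 τ)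
  rw [← intervalIntegral.integral_sub (c1.intervalIntegrable _ _) (c2.intervalIntegrable _ _)]
  have h1 := intervalIntegral.norm_integral_le_of_norm_le_const (a := (0 : ℝ)) (b := 1)
    (f := fun v : ℝ => (τ⁻¹ * ∫ t in (0 : ℝ)..τ, w v (t + x)) -
      τ⁻¹ * ∫ t in (0 : ℝ)..τ, w v t) (C := 2 * |x| * m / τ) (by
      intro v _
      rw [← mul_sub, Real.norm_eq_abs, abs_mul, abs_of_pos (inv_pos.2 hτ)]
      have hcv : Continuous fun t : ℝ => w v t :=
        hw.comp (continuous_const.prodMk continuous_id)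
      have h3 := QAV_shift (fun t => w v t) hcv m (fun t => hm _ _) 0 τ x
      calc τ⁻¹ * |(∫ t in (0 : ℝ)..τ, w v (t + x)) -
            ∫ t in (0 : ℝ)..τ, w v t| ≤ τ⁻¹ * (2 * |x| * m) :=
            mul_le_mul_of_nonneg_left h3 (inv_pos.2 hτ).le
        _ = 2 * |x| * m / τ := by ring)
  rw [Real.norm_eq_abs] at h1
  refine h1.trans (le_of_eq ?_)
  norm_num

private theorem QAV_b (w : ℝ → ℝ → ℝ) (hw : Continuous (Function.uncurry w)) (m : ℝ) (hm : ∀ v t, |w v t| ≤ m)
    (τ x : ℝ) (hτ : 0 < τ) :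
    |(∫ v in (0 : ℝ)..1, τ⁻¹ * ∫ t in (0 : ℝ)..τ, w (v + Real.exp (-t) * x) t) -
      ∫ v in (0 : ℝ)..1, τ⁻¹ * ∫ t in (0 : ℝ)..τ, w v t| ≤ 2 * |x| * m / τ := by
  have hm0 : 0 ≤ m := (abs_nonneg _).trans (hm 0 0)
  have hw' : Continuous (Function.uncurry fun v t => w (v + Real.exp (-t) * x) t) := by
    have : Continuous fun p : ℝ × ℝ => (p.1 + Real.exp (-p.2) * x, p.2) := by fun_prop
    exact hw.comp this
  have e1 : (∫ v in (0 : ℝ)..1, τ⁻¹ * ∫ t in (0 : ℝ)..τ, w v t) =
      τ⁻¹ * ∫ t in (0 : ℝ)..τ, ∫ v in (0 : ℝ)..1, w v t := by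
    rw [intervalIntegral.integral_const_mul, QAV_swap (fun v t => w v t) hw 0 1 0 τ]
  have e2 : (∫ v in (0 : ℝ)..1, τ⁻¹ * ∫ t in (0 : ℝ)..τ, w (v + Real.exp (-t) * x) t) =
      τ⁻¹ * ∫ t in (0 : ℝ)..τ, ∫ v in (0 : ℝ)..1, w (v + Real.exp (-t) * x) t := by
    rw [intervalIntegral.integral_const_mul,
      QAV_swap (fun v t => w (v + Real.exp (-t) * x) t) hw' 0 1 0 τ]
  have s1 : Continuous (Function.uncurry fun t v => w (v + Real.exp (-t) * x) t) := by
    have : Continuous fun p : ℝ × ℝ => (p.2 + Real.exp (-p.1) * x, p.1) := by fun_prop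
    exact hw.comp this
  have s2 : Continuous (Function.uncurry fun t v => w v t) := hw.comp continuous_swap
  have c1 : Continuous fun t : ℝ => ∫ v in (0 : ℝ)..1, w (v + Real.exp (-t) * x) t :=
    intervalIntegral.continuous_parametric_intervalIntegral_of_continuous' s1 0 1
  have c2 : Continuous fun t : ℝ => ∫ v in (0 : ℝ)..1, w v t :=
    intervalIntegral.continuous_parametric_intervalIntegral_of_continuous' s2 0 1
  rw [e1, e2, ← mul_sub, ← intervalIntegral.integral_sub (c1.intervalIntegrable _ _)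
    (c2.intervalIntegrable _ _), abs_mul, abs_of_pos (inv_pos.2 hτ)]
  have h1 : |∫ t in (0 : ℝ)..τ, ((∫ v in (0 : ℝ)..1, w (v + Real.exp (-t) * x) t) -
      ∫ v in (0 : ℝ)..1, w v t)| ≤ ∫ t in (0 : ℝ)..τ, 2 * |x| * m * Real.exp (-t) := by
    rw [← Real.norm_eq_abs]
    refine intervalIntegral.norm_integral_le_of_norm_le hτ.le ?_
      ((by fun_prop : Continuous fun t : ℝ => 2 * |x| * m * Real.exp (-t)).intervalIntegrable _ _)
    refine Filter.Eventually.of_forall fun t _ => ?_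
    rw [Real.norm_eq_abs]
    have hcv : Continuous fun v : ℝ => w v t :=
      hw.comp (continuous_id.prodMk continuous_const)
    have h3 := QAV_shift (fun v => w v t) hcv m (fun t => hm _ _) 0 1 (Real.exp (-t) * x)
    refine h3.trans (le_of_eq ?_)
    rw [abs_mul, abs_of_pos (Real.exp_pos _)]
    ring
  have h2 : ∫ t in (0 : ℝ)..τ, 2 * |x| * m * Real.exp (-t) ≤ 2 * |x| * m := by
    rw [intervalIntegral.integral_const_mul]
    have h3 : ∫ t in (0 : ℝ)..τ, Real.exp (-t) = 1 - Real.exp (-τ) := by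
      rw [intervalIntegral.integral_comp_neg (fun t => Real.exp t), integral_exp]
      simp
    rw [h3]
    have h4 : 1 - Real.exp (-τ) ≤ 1 := by linarith [Real.exp_pos (-τ)]
    calc 2 * |x| * m * (1 - Real.exp (-τ)) ≤ 2 * |x| * m * 1 :=
          mul_le_mul_of_nonneg_left h4 (by positivity)
      _ = _ := mul_one _
  refine (mul_le_mul_of_nonneg_left (h1.trans h2) (inv_pos.2 hτ).le).trans (le_of_eq ?_)
  ring

theorem QAV (hGLC : GLC_stmt) : QAV_stmt := by
  obtain ⟨-, -, -, cA, -, cL, -, -, -, -, addA, -, addL, -, -, -, -, -, comLA, -⟩ := hGLC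
  intro τ m x g u hτ hu hm
  have hw : Continuous (Function.uncurry fun v t => u (g * lM v * aM t)) :=
    hu.comp ((continuous_const.mul (cL.comp continuous_fst)).mul (cA.comp continuous_snd))
  constructor
  · have e1 : AV τ g (fun k => u (k * aM x)) =
        ∫ v in (0 : ℝ)..1, τ⁻¹ * ∫ t in (0 : ℝ)..τ, u (g * lM v * aM (t + x)) := by
      unfold AV
      simp only [addA, mul_assoc]
    rw [e1]
    exact QAV_a (fun v t => u (g * lM v * aM t)) hw m (fun _ _ => hm _) τ x hτ
  · have e0 : ∀ v t : ℝ, g * lM v * aM t * lM x = g * lM (v + Real.exp (-t) * x) * aM t := by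
      intro v t
      have h1 : lM (Real.exp (-t) * x) * aM t = aM t * lM x := by
        rw [comLA, ← mul_assoc (Real.exp t), ← Real.exp_add, add_neg_cancel, Real.exp_zero, one_mul]
      rw [addL, mul_assoc (g * lM v), ← h1]
      simp only [mul_assoc]
    have e1 : AV τ g (fun k => u (k * lM x)) =
        ∫ v in (0 : ℝ)..1, τ⁻¹ * ∫ t in (0 : ℝ)..τ, u (g * lM (v + Real.exp (-t) * x) * aM t) := by
      unfold AV
      simp only [e0]
    rw [e1]
    exact QAV_b (fun v t => u (g * lM v * aM t)) hw m (fun _ _ => hm _) τ x hτ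

end Pool.Agent.RS
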