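import Pool.Agent.helper62.RS.SpecQ

/-!
# MP_07c750_an, row rs:QZD
-/

open scoped MatrixGroups ContDiff Topology UpperHalfPlane ComplexConjugate
open UpperHalfPlane MeasureTheory Filter Set

namespace Pool.Agent.RS

private theorem QZD_swap (F : ℝ → ℝ → ℝ) (hF : Continuous (Function.uncurry F)) (a b c d : ℝ) :
    ∫ x in a..b, ∫ y in c..d, F x y = ∫ y in c..d, ∫ x in a..b, F x y := by
  apply intervalIntegral_intervalIntegral_swap
  exact (hF.continuousOn.integrableOn_compact (isCompact_uIcc.prod isCompact_uIcc)).mono_set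
    (Set.prod_mono uIoc_subset_uIcc uIoc_subset_uIcc)

private theorem QZD_swap3 (W : ℝ → ℝ → ℝ → ℝ) (hW : Continuous fun p : (ℝ × ℝ) × ℝ => W p.1.1 p.1.2 p.2)
    (τ : ℝ) : ∫ x in (0 : ℝ)..1, (∫ v in (0 : ℝ)..1, τ⁻¹ * ∫ t in (0 : ℝ)..τ, W x v t) =
      ∫ v in (0 : ℝ)..1, τ⁻¹ * ∫ t in (0 : ℝ)..τ, ∫ x in (0 : ℝ)..1, W x v t := by
  have c1 : Continuous (Function.uncurry fun x v : ℝ => τ⁻¹ * ∫ t in (0 : ℝ)..τ, W x v t) :=
    continuous_const.mul
      (intervalIntegral.continuous_parametric_intervalIntegral_of_continuous'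
        (f := fun (p : ℝ × ℝ) (t : ℝ) => W p.1 p.2 t) hW 0 τ)
  rw [QZD_swap _ c1 0 1 0 1]
  refine intervalIntegral.integral_congr fun v _ => ?_
  show (∫ x in (0 : ℝ)..1, τ⁻¹ * ∫ t in (0 : ℝ)..τ, W x v t) = τ⁻¹ * ∫ t in (0 : ℝ)..τ, ∫ x in (0 : ℝ)..1, W x v t
  rw [intervalIntegral.integral_const_mul]
  have c2 : Continuous (Function.uncurry fun x t : ℝ => W x v t) := by
    have : Continuous fun p : ℝ × ℝ => ((p.1, v), p.2) := by fun_prop
    exact hW.comp this
  rw [QZD_swap _ c2 0 1 0 τ]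

private theorem QZD_sub (w1 w2 : ℝ → ℝ → ℝ) (h1 : Continuous (Function.uncurry w1))
    (h2 : Continuous (Function.uncurry w2)) (τ : ℝ) :
    ∫ v in (0 : ℝ)..1, τ⁻¹ * ∫ t in (0 : ℝ)..τ, (w1 v t - w2 v t) =
      (∫ v in (0 : ℝ)..1, τ⁻¹ * ∫ t in (0 : ℝ)..τ, w1 v t) - ∫ v in (0 : ℝ)..1, τ⁻¹ * ∫ t in (0 : ℝ)..τ, w2 v t := by
  have c1 : Continuous fun v : ℝ => τ⁻¹ * ∫ t in (0 : ℝ)..τ, w1 v t :=
    continuous_const.mul
      (intervalIntegral.continuous_parametric_intervalIntegral_of_continuous' h1 0 τ)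
  have c2 : Continuous fun v : ℝ => τ⁻¹ * ∫ t in (0 : ℝ)..τ, w2 v t :=
    continuous_const.mul
      (intervalIntegral.continuous_parametric_intervalIntegral_of_continuous' h2 0 τ)
  rw [← intervalIntegral.integral_sub (c1.intervalIntegrable _ _) (c2.intervalIntegrable _ _)]
  refine intervalIntegral.integral_congr fun v _ => ?_
  show τ⁻¹ * ∫ t in (0 : ℝ)..τ, (w1 v t - w2 v t) = τ⁻¹ * (∫ t in (0 : ℝ)..τ, w1 v t) - τ⁻¹ * ∫ t in (0 : ℝ)..τ, w2 v t
  have d1 : Continuous fun t : ℝ => w1 v t := h1.comp (continuous_const.prodMk continuous_id)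
  have d2 : Continuous fun t : ℝ => w2 v t := h2.comp (continuous_const.prodMk continuous_id)
  rw [intervalIntegral.integral_sub (d1.intervalIntegrable _ _) (d2.intervalIntegrable _ _), mul_sub]

theorem QZD (hGLC : GLC_stmt) (hQAV : QAV_stmt) : QZD_stmt := by
  obtain ⟨-, -, -, cA, -, cL, -, -, -, -, addA, -, addL, -, -, -, -, -, -, -⟩ := hGLC
  intro τ m g h u u' hh hτ hu hu' hm hm' hd
  have hch : Continuous h := by
    rcases hh with rfl | rfl
    · exact cA
    · exact cL
  have hadd : ∀ s t, h (s + t) = h s * h t := by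
    rcases hh with rfl | rfl
    · exact addA
    · exact addL
  have hq : ∀ (x : ℝ) (f : SL(2, ℝ) → ℝ), Continuous f → (∀ g, |f g| ≤ m) →
      |AV τ g (fun k => f (k * h x)) - AV τ g f| ≤ 2 * |x| * m / τ := by
    intro x f hf hfm
    rcases hh with rfl | rfl
    · exact (hQAV τ m x g f hτ hf hfm).1
    · exact (hQAV τ m x g f hτ hf hfm).2
  have hm0 : 0 ≤ m := (abs_nonneg _).trans (hm 1)
  have h00 : h 0 = 1 := by
    have e := hadd 0 0
    rw [add_zero] at e
    exact (mul_eq_left.1 e.symm)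
  have hft : ∀ k : SL(2, ℝ), ∫ x in (0 : ℝ)..1, u' (k * h x) = u (k * h 1) - u k := by
    intro k
    have h1 : ∫ x in (0 : ℝ)..1, u' (k * h x) = u (k * h 1) - u (k * h 0) := by
      refine intervalIntegral.integral_eq_sub_of_hasDerivAt (f := fun x => u (k * h x)) (fun x _ => ?_) ?_
      · have h2 := hd (k * h x)
        have h3 : HasDerivAt (fun t => u (k * h x * h t)) (u' (k * h x)) (x - x) := by
          rw [sub_self]; exact h2
        have h4 := HasDerivAt.comp_sub_const x x h3
        have h5 : (fun y => u (k * h x * h (y - x))) = fun y => u (k * h y) := by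
          funext y
          rw [mul_assoc, ← hadd, add_sub_cancel]
        rw [h5] at h4
        exact h4
      · exact (hu'.comp (continuous_const.mul hch)).intervalIntegrable _ _
    rw [h1, h00, mul_one]
  have cW : Continuous fun p : (ℝ × ℝ) × ℝ => u' (g * lM p.1.2 * aM p.2 * h p.1.1) :=
    hu'.comp (((continuous_const.mul (cL.comp (continuous_snd.comp continuous_fst))).mul
      (cA.comp continuous_snd)).mul (hch.comp (continuous_fst.comp continuous_fst)))
  have cw : Continuous (Function.uncurry fun v t => u (g * lM v * aM t)) :=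
    hu.comp ((continuous_const.mul (cL.comp continuous_fst)).mul (cA.comp continuous_snd))
  have cw1 : Continuous (Function.uncurry fun v t => u (g * lM v * aM t * h 1)) :=
    hu.comp (((continuous_const.mul (cL.comp continuous_fst)).mul (cA.comp continuous_snd)).mul
      continuous_const)
  -- the integral over `x`
  have e1 : ∫ x in (0 : ℝ)..1, AV τ g (fun k => u' (k * h x)) =
      AV τ g (fun k => u (k * h 1)) - AV τ g u := by
    unfold AV
    rw [QZD_swap3 (fun x v t => u' (g * lM v * aM t * h x)) cW τ]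
    simp only [hft]
    exact QZD_sub (fun v t => u (g * lM v * aM t * h 1)) (fun v t => u (g * lM v * aM t)) cw1 cw τ
  have b1 : |∫ x in (0 : ℝ)..1, AV τ g (fun k => u' (k * h x))| ≤ 2 * m / τ := by
    rw [e1]
    have := hq 1 u hu hm
    rwa [abs_one, mul_one] at this
  have cA1 : Continuous fun x : ℝ => AV τ g (fun k => u' (k * h x)) := by
    unfold AV
    have c1 : Continuous (Function.uncurry fun x v : ℝ => τ⁻¹ * ∫ t in (0 : ℝ)..τ, u' (g * lM v * aM t * h x)) :=
      continuous_const.mul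
        (intervalIntegral.continuous_parametric_intervalIntegral_of_continuous'
          (f := fun (p : ℝ × ℝ) (t : ℝ) => u' (g * lM p.2 * aM t * h p.1)) cW 0 τ)
    exact intervalIntegral.continuous_parametric_intervalIntegral_of_continuous' c1 0 1
  have b2 : |∫ x in (0 : ℝ)..1, (AV τ g (fun k => u' (k * h x)) - AV τ g u')| ≤ 2 * m / τ := by
    rw [← Real.norm_eq_abs]
    have h1 := intervalIntegral.norm_integral_le_of_norm_le_const (a := (0 : ℝ)) (b := 1)
      (f := fun x : ℝ => AV τ g (fun k => u' (k * h x)) - AV τ g u') (C := 2 * m / τ) (by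
        intro x hx
        rw [uIoc_of_le zero_le_one] at hx
        rw [Real.norm_eq_abs]
        refine (hq x u' hu' hm').trans ?_
        have h2 : |x| ≤ 1 := by
          rw [abs_of_pos hx.1]; exact hx.2
        refine div_le_div_of_nonneg_right ?_ hτ.le
        nlinarith [abs_nonneg x])
    refine h1.trans (le_of_eq ?_)
    norm_num
  have e2 : AV τ g u' = (∫ x in (0 : ℝ)..1, AV τ g (fun k => u' (k * h x))) -
      ∫ x in (0 : ℝ)..1, (AV τ g (fun k => u' (k * h x)) - AV τ g u') := by
    rw [intervalIntegral.integral_sub (cA1.intervalIntegrable _ _) (continuous_const.intervalIntegrable _ _),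
      intervalIntegral.integral_const]
    simp
  rw [e2]
  refine (abs_sub _ _).trans ((add_le_add b1 b2).trans (le_of_eq ?_))
  ring

end Pool.Agent.RS
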