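import Pool.Agent.helper62.RS.SpecS

/-!
# MP_07c750_an, row rs:SCA
-/

open scoped MatrixGroups ContDiff Topology UpperHalfPlane
open UpperHalfPlane MeasureTheory Filter Set

namespace Pool.Agent.RS

theorem SCA (hGLC : GLC_stmt) : SCA_stmt := by
  obtain ⟨-, -, -, -, -, -, cK, actA, -, -, -, -, -, addK, -, fixI, -, -, -, kaM⟩ := hGLC
  intro z
  have k00 : kM 0 = 1 := by
    have e := addK 0 0
    rw [add_zero] at e
    exact (mul_eq_left.1 e.symm)
  have kinv : ∀ (θ : ℝ) (w : ℍ), kM (-θ) • kM θ • w = w := by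
    intro θ w
    rw [← mul_smul, ← addK, neg_add_cancel, k00, one_smul]
  -- every point on the imaginary axis
  have him : ∀ w : ℍ, w.re = 0 → w = aM (Real.log w.im) • I := by
    intro w hw
    apply UpperHalfPlane.ext
    rw [actA, Real.exp_log w.im_pos]
    apply Complex.ext
    · simp [hw]
    · simp
  have hc : Continuous fun θ : ℝ => ((kM θ • z : ℍ) : ℂ).re :=
    Complex.continuous_re.comp (UpperHalfPlane.continuous_coe.comp (cK.smul continuous_const))
  have h1 : ((kM (Real.pi / 2) • z : ℍ) : ℂ).re = -((z : ℂ).re / Complex.normSq (z : ℂ)) := by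
    rw [UpperHalfPlane.coe_specialLinearGroup_apply]
    simp [kM]
  have h0 : ((kM 0 • z : ℍ) : ℂ).re = (z : ℂ).re := by
    rw [k00, one_smul]
  have hns : 0 ≤ Complex.normSq (z : ℂ) := Complex.normSq_nonneg _
  obtain ⟨θ, hθ⟩ : ∃ θ : ℝ, ((kM θ • z : ℍ) : ℂ).re = 0 := by
    rcases le_total 0 (z : ℂ).re with h | h
    · exact mem_range_of_exists_le_of_exists_ge hc
        ⟨Real.pi / 2, by rw [h1]; exact neg_nonpos.2 (div_nonneg h hns)⟩ ⟨0, by rw [h0]; exact h⟩
    · exact mem_range_of_exists_le_of_exists_ge hc ⟨0, by rw [h0]; exact h⟩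
        ⟨Real.pi / 2, by rw [h1]; exact neg_nonneg.2 (div_nonpos_of_nonpos_of_nonneg h hns)⟩
  have h2 := him (kM θ • z) hθ
  set t : ℝ := Real.log (kM θ • z).im with ht
  rcases le_total 0 t with h | h
  · refine ⟨-θ, t, h, ?_⟩
    rw [← h2, kinv]
  · refine ⟨-θ + -(Real.pi / 2), -t, by linarith, ?_⟩
    have h3 : kM (Real.pi / 2) • aM t • I = aM (-t) • I := by
      rw [← mul_smul, kaM, mul_smul, fixI]
    rw [addK, mul_smul, ← h3, kinv, ← h2, kinv]

end Pool.Agent.RS
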